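import Pool.Agent.Helper74K9.PS2.All
/-!
MP_8870f3_co: the set `A_t` for every `t ≥ 3`.
-/

set_option autoImplicit false

namespace Pool.Agent.Results.MP_8870f3_co.CliqueFactorThresholds

/-- The `k`-th power of the `n`-cycle: distinct `i`, `j` in `ZMod n` are adjacent iff
`j - i = ± d` for some `1 ≤ d ≤ k`. -/
def cyclePower (n k : ℕ) : SimpleGraph (ZMod n) where
  Adj i j := i ≠ j ∧ ∃ d : ℕ, 1 ≤ d ∧ d ≤ k ∧ (j - i = (d : ZMod n) ∨ j - i = -(d : ZMod n))
  symm := ⟨by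
    rintro i j ⟨h, d, h1, h2, h3⟩
    refine ⟨h.symm, d, h1, h2, ?_⟩
    rcases h3 with h3 | h3
    · right; rw [← h3]; ring
    · left; rw [← neg_sub, h3]; ring⟩
  loopless := ⟨fun i h => h.1 rfl⟩

/-- The degree of the vertex `v` in `G`. -/
noncomputable def degree {V : Type} (G : SimpleGraph V) (v : V) : ℕ := (G.neighborSet v).ncard

/-- `H` is an `α`-subgraph of `G`: a spanning subgraph in which every vertex has at least `α` times
its degree in `G`. -/
def IsAlphaSubgraph {V : Type} (α : ℝ) (H G : SimpleGraph V) : Prop :=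
  H ≤ G ∧ ∀ v, α * degree G v ≤ degree H v

/-- `H` has a `K_t`-factor: a set of vertex-disjoint copies of `K_t` covering all vertices. -/
def HasCliqueFactor {V : Type} (t : ℕ) (H : SimpleGraph V) : Prop :=
  ∃ F : Set (Finset V), (∀ K ∈ F, H.IsNClique t K) ∧
    (∀ K ∈ F, ∀ L ∈ F, K ≠ L → ∀ v, v ∈ K → v ∉ L) ∧ ∀ v, ∃ K ∈ F, v ∈ K

/-- The set `A_t`: all `α > 0` for which there is a `k₀` such that for all `k ≥ k₀` and all
`n ≥ k` (`n, k ≥ 1`) with `t ∣ n`, every `α`-subgraph of `C_n^k` has a `K_t`-factor. -/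
def A (t : ℕ) : Set ℝ := {α | 0 < α ∧ ∃ k₀ : ℕ, ∀ k n : ℕ, 1 ≤ k → k₀ ≤ k → k ≤ n → t ∣ n →
  ∀ H : SimpleGraph (ZMod n), IsAlphaSubgraph α H (cyclePower n k) → HasCliqueFactor t H}

/-- `A_t = (1 - 1 / (2 (t - 1)), ∞)` for every `t ≥ 3`: the threshold is `1 - 1 / (2 (t - 1))` and
it is not attained. -/
theorem result (t : ℕ) (ht : 3 ≤ t) : A t = Set.Ioi (1 - 1 / (2 * ((t : ℝ) - 1))) :=
  Pool.Agent.Helper74K9.PS2.all t ht

end Pool.Agent.Results.MP_8870f3_co.CliqueFactorThresholds
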